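import Pool.Agent.W438.CY.Stm

/-! Project CY: the right swap. -/

set_option autoImplicit false

namespace Pool.Agent.W856.CY.LR

open Function Pool.Agent.W438.CY

theorem lr : S_LR := by
  intro m C x g β j hR hβ
  have hj : update g j β j = β := update_self j β g
  have hne : ∀ l, l ≠ j → update g j β l = g l := fun l hl => update_of_ne hl β g
  set h : Fin m → ℕ := update g j β with hh
  constructor
  · intro hP
    have hjj : ¬ (∀ l, l ≠ j → β < g l) := by
      intro hall
      refine hP j j (Or.inr ⟨le_rfl, ?_, ?_, ?_, ?_⟩) rfl
      · rw [hj]; omega
      · rw [hj]; omega
      · intro l hl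
        have := hall l hl.ne
        rw [hj, hne l hl.ne]
        omega
      · intro l hl
        have := hall l hl.ne'
        rw [hj, hne l hl.ne']
        omega
    refine ⟨?_, ⟨?_, ?_⟩, ?_⟩
    · rintro i k (⟨hik, hI⟩ | ⟨hik, h1, h2, h3, h4⟩)
      · rcases lt_trichotomy i j with hi | hi | hi
        · rcases lt_trichotomy k j with hk | hk | hk
          · refine hP i k (Or.inl ⟨hik, fun l hl1 hl2 => ?_⟩)
            rw [hne i hi.ne, hne k hk.ne, hne l (hl2.trans hk).ne]
            exact hI l hl1 hl2
          · subst hk
            refine hP i k (Or.inl ⟨hik, fun l hl1 hl2 => ?_⟩)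
            rw [hne i hi.ne, hj, hne l hl2.ne]
            have a1 := hI l hl1 hl2
            have a2 := hR l hl2
            omega
          · have a1 := hI j hi hk
            have a2 := hR i hi
            omega
        · subst hi
          refine hP i k (Or.inl ⟨hik, fun l hl1 hl2 => ?_⟩)
          rw [hj, hne k hik.ne', hne l hl1.ne']
          have a1 := hI l hl1 hl2
          omega
        · have hk : j < k := hi.trans hik
          refine hP i k (Or.inl ⟨hik, fun l hl1 hl2 => ?_⟩)
          rw [hne i hi.ne', hne k hk.ne', hne l (hi.trans hl1).ne']
          exact hI l hl1 hl2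
      · rcases lt_trichotomy i j with hi | hi | hi
        · have a2 := hR i hi
          omega
        · subst hi
          omega
        · have hk : j < k := lt_of_lt_of_le hi hik
          refine hP i k (Or.inr ⟨hik, ?_, ?_, fun l hl => ?_, fun l hl => ?_⟩)
          · rw [hne k hk.ne']; omega
          · rw [hne i hi.ne']; omega
          · rw [hne k hk.ne', hne i hi.ne']
            by_cases hl' : l = j
            · subst hl'
              rw [hj]
              omega
            · rw [hne l hl']
              exact h3 l hl
          · rw [hne k hk.ne', hne i hi.ne', hne l (hk.trans hl).ne']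
            exact h4 l hl
    · intro l hL hl
      rcases lt_trichotomy l j with hlj | hlj | hlj
      · have a1 := hL j hlj
        have a2 := hR l hlj
        omega
      · subst hlj
        exfalso
        apply hjj
        intro l' hl'
        rcases lt_or_gt_of_ne hl' with h5 | h5
        · have := hR l' h5
          omega
        · exact (hL l' h5).2
      · intro hx
        refine hP j l (Or.inr ⟨hlj.le, ?_, ?_, fun l' hl' => ?_, fun l' hl' => ?_⟩) hx.symm
        · rw [hne l hlj.ne']; omega
        · rw [hj]; omega
        · rw [hne l hlj.ne', hj, hne l' hl'.ne]
          have := hR l' hl'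
          omega
        · rw [hne l hlj.ne', hj, hne l' (hlj.trans hl').ne']
          exact hL l' hl'
    · intro l hl hRt hx
      refine hP j l (Or.inl ⟨hl, fun l' h5 h6 => ?_⟩) hx.symm
      rw [hj, hne l hl.ne', hne l' h5.ne']
      exact hRt l' h6
    · intro hB
      exact hjj fun l _ => hB l
  · rintro ⟨hP, ⟨hN1, hN2⟩, hB⟩
    rintro i k (⟨hik, hI⟩ | ⟨hik, h1, h2, h3, h4⟩)
    · rcases lt_trichotomy i j with hi | hi | hi
      · rcases lt_trichotomy k j with hk | hk | hk
        · refine hP i k (Or.inl ⟨hik, fun l hl1 hl2 => ?_⟩)
          have a1 := hI l hl1 hl2
          rw [hne i hi.ne, hne k hk.ne, hne l (hl2.trans hk).ne] at a1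
          exact a1
        · subst hk
          refine hP i k (Or.inl ⟨hik, fun l hl1 hl2 => ?_⟩)
          have a1 := hI l hl1 hl2
          rw [hne i hi.ne, hj, hne l hl2.ne] at a1
          have a2 := hR l hl2
          omega
        · have a1 := hI j hi hk
          rw [hne i hi.ne, hj] at a1
          have a2 := hR i hi
          omega
      · subst hi
        by_cases hc : g k < g i
        · intro hx
          refine hN2 k hik (fun l hl => ?_) hx.symm
          rcases lt_trichotomy l i with h5 | h5 | h5
          · have := hR l h5
            omega
          · subst h5
            omega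
          · have a1 := hI l h5 hl
            rw [hj, hne k hik.ne', hne l h5.ne'] at a1
            exact a1
        · refine hP i k (Or.inl ⟨hik, fun l hl1 hl2 => ?_⟩)
          have a1 := hI l hl1 hl2
          rw [hj, hne k hik.ne', hne l hl1.ne'] at a1
          omega
      · have hk : j < k := hi.trans hik
        refine hP i k (Or.inl ⟨hik, fun l hl1 hl2 => ?_⟩)
        have a1 := hI l hl1 hl2
        rw [hne i hi.ne', hne k hk.ne', hne l (hi.trans hl1).ne'] at a1
        exact a1
    · rcases lt_trichotomy i j with hi | hi | hi
      · rw [hne i hi.ne] at h2
        have a2 := hR i hi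
        omega
      · subst hi
        rcases eq_or_lt_of_le hik with hk | hk
        · subst hk
          exfalso
          have hall : ∀ l, l ≠ i → β < g l := by
            intro l hl
            rcases lt_or_gt_of_ne hl with h5 | h5
            · have := h3 l h5
              rw [hj, hne l hl] at this
              exact this.2
            · have := h4 l h5
              rw [hj, hne l hl] at this
              exact this.2
          rcases eq_or_lt_of_le hβ with h5 | h5
          · refine hN1 i (fun l hl => ?_) (by omega) rfl
            have := hall l hl.ne'
            omega
          · apply hB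
            intro l
            by_cases hl : l = i
            · subst hl; exact h5
            · exact hall l hl
        · intro hx
          rw [hne k hk.ne'] at h1
          refine hN1 k (fun l hl => ?_) h1 hx.symm
          have := h4 l hl
          rw [hj, hne k hk.ne', hne l (hk.trans hl).ne'] at this
          exact this
      · have hk : j < k := lt_of_lt_of_le hi hik
        rw [hne k hk.ne'] at h1
        rw [hne i hi.ne'] at h2
        have a3 := h3 j hi
        rw [hj, hne k hk.ne', hne i hi.ne'] at a3
        refine hP i k (Or.inr ⟨hik, a3.1, a3.2, fun l hl => ?_, fun l hl => ?_⟩)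
        · by_cases hl' : l = j
          · subst hl'
            omega
          · have := h3 l hl
            rw [hne k hk.ne', hne i hi.ne', hne l hl'] at this
            exact this
        · have := h4 l hl
          rw [hne k hk.ne', hne i hi.ne', hne l (hk.trans hl).ne'] at this
          exact this

end Pool.Agent.W856.CY.LR
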